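import Mathlib
import Pool.Agent.Q29.OvX
import Pool.Agent.TH659.HY.Fun2

/-!
# Logarithms and elliptic logarithms over arbitrary constants: uniform distribution of the multiples of the values

Let `u(t) = ∫_c^t ds / √(4 s ^ 3 - g₂ s - g₃)` and `v(t) = ∫_c^t s ds / √(4 s ^ 3 - g₂ s - g₃)` be the elliptic logarithm and the
quasi-logarithm, on an interval `[a, b]` on which the cubic polynomial is positive, and let `x_1, …, x_r` be distinct real
numbers greater than `-a`.
Let `ξ_1, …, ξ_g` be ARBITRARY real numbers, which may depend on `T` and may be as large as `T ^ H`, for instance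
`g₂, g₃, π` and the periods.
Let `F` be a number field of degree at most `m` with an embedding in the complex numbers, and let `X` be any finite set of
numbers of `F` in `[a, b]` which are quotients of integers of `F` with conjugates at most `T`. For all but `C T ^ ε |X| ^ (n - 1)`
of the `n`-tuples of elements `q_j` of `X` the following holds: every value `y` of a polynomial of partial degrees at most `d` at
the numbers `u(q_j), v(q_j), log (q_j + x_i)`, whose coefficients are polynomials in the `ξ_i` of partial degrees at most `d` with integer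
coefficients at most `T ^ A`, one of the nonconstant ones being at least `T ^ (-H)` in absolute value, has uniformly distributed
multiples at all the scales `M` between `T ^ B` and `T ^ E`: `k y`, `k < M`, also for `k` in the set of the powers of fixed exponent
or of the prime numbers in a residue class, is uniformly distributed modulo one with an error `M ^ (1 - κ)`. The constants do not
depend on the field, on the set `X` and on the numbers `ξ_i`.

The proof uses the theorem of helper23 on approximate relations over arbitrary constants at algebraic points (`Q23.AQ.fewR`,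
from the starting files `Y124`, `Y771`), the independence of the functions (`TH659.HY`), an inverse theorem for the sums of Weyl
and a form of the estimate of Vinogradov for the sums over primes with a power saving (`H373R2/NB`, `W110/HV`).
-/

set_option autoImplicit false

namespace Pool.Agent.Results.MP_c9768e_nt.MultiplesOverConstants

open Finset Polynomial

/-- The multiples of `x` are uniformly distributed at the scale `M`, with a power saving, along all polynomials of degree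
at most `K` and along the primes of all residue classes:

* for every nonzero integer `b` with `|b| ≤ M ^ κ`, every `1 ≤ k ≤ K` and every real polynomial `R` of degree less than
  `k`, the number of `0 ≤ n < M` with the fractional part of `b x n ^ k + R(n)` in `[u, v)` is `(v - u) M` up to
  `M ^ (1 - κ)`, for all `0 ≤ u ≤ v ≤ 1`;
* for every such `b`, every `1 ≤ d ≤ M ^ κ`, every `r` and every real `β`, the number of primes `p ≤ M` with
  `p ≡ r (mod d)` and the fractional part of `b x p + β` in `[u, v)` is `(v - u)` times the number of all the primes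
  `p ≤ M` with `p ≡ r (mod d)`, up to `M ^ (1 - κ)`. -/
def Good (κ : ℝ) (K M : ℕ) (x : ℝ) : Prop :=
  (∀ b : ℤ, b ≠ 0 → |(b : ℝ)| ≤ (M : ℝ) ^ κ → ∀ k : ℕ, 1 ≤ k → k ≤ K → ∀ R : ℝ[X], R.degree < k →
    ∀ u v : ℝ, 0 ≤ u → u ≤ v → v ≤ 1 →
      |(((range M).filter fun n : ℕ => u ≤ Int.fract (b * x * (n : ℝ) ^ k + R.eval (n : ℝ)) ∧
          Int.fract (b * x * (n : ℝ) ^ k + R.eval (n : ℝ)) < v).card : ℝ) - (v - u) * M| ≤
        (M : ℝ) ^ (1 - κ)) ∧
  (∀ b : ℤ, b ≠ 0 → |(b : ℝ)| ≤ (M : ℝ) ^ κ → ∀ d r : ℕ, 1 ≤ d → (d : ℝ) ≤ (M : ℝ) ^ κ → ∀ β : ℝ,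
    ∀ u v : ℝ, 0 ≤ u → u ≤ v → v ≤ 1 →
      |(((range (M + 1)).filter fun p : ℕ => (p.Prime ∧ p ≡ r [MOD d]) ∧
          (u ≤ Int.fract (b * x * p + β) ∧ Int.fract (b * x * p + β) < v)).card : ℝ) -
        (v - u) * ((range (M + 1)).filter fun p : ℕ => p.Prime ∧ p ≡ r [MOD d]).card| ≤
        (M : ℝ) ^ (1 - κ))

/-- The value at `y` of the polynomial `P` whose coefficients are integer polynomials in the numbers `ξ_1, …, ξ_g`. -/
noncomputable def value {g : ℕ} {τ : Type} (ξ : Fin g → ℝ) (y : τ → ℝ) (P : MvPolynomial τ (MvPolynomial (Fin g) ℤ)) : ℝ :=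
  MvPolynomial.eval₂ (MvPolynomial.aeval ξ : MvPolynomial (Fin g) ℤ →ₐ[ℤ] ℝ).toRingHom y P

/-- The polynomials of degree at most `d` in every variable whose coefficients are polynomials in `ξ_1, …, ξ_g` of degree at most
`d` in every variable with integer coefficients of absolute value at most `R`, with a nonconstant coefficient whose value is at
least `r` in absolute value. -/
def Admissible {g : ℕ} {τ : Type} (ξ : Fin g → ℝ) (d : ℕ) (R r : ℝ) (P : MvPolynomial τ (MvPolynomial (Fin g) ℤ)) : Prop :=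
  (∀ j, P.degreeOf j ≤ d) ∧ (∀ e i, (P.coeff e).degreeOf i ≤ d) ∧ (∀ e u, |(((P.coeff e).coeff u : ℤ) : ℝ)| ≤ R) ∧
    ∃ e, e ≠ 0 ∧ r ≤ |MvPolynomial.aeval ξ (P.coeff e)|

/-- The numbers of a number field `F`, with an embedding `ι`, which are in `[a, b]` and are quotients of integers of `F` all of
whose conjugates have absolute value at most `T`. -/
def IsPoint {F : Type} [Field F] (ι : F →+* ℂ) (a b T : ℝ) (x : F) : Prop :=
  (∃ t : ℝ, a ≤ t ∧ t ≤ b ∧ ι x = t) ∧
    ∃ α β : NumberField.RingOfIntegers F, β ≠ 0 ∧ (∀ φ : F →+* ℂ, ‖φ α‖ ≤ T ∧ ‖φ β‖ ≤ T) ∧ x = α / β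

/-- The `n`-tuples `q` of numbers of `X` for which there are an admissible polynomial `P` and an `M` between `T ^ B` and `T ^ E`
such that the multiples of its value at the numbers `f_i(q_j)` are not uniformly distributed at the scale `M`. -/
def Exceptional {κ F : Type} [Field F] {g : ℕ} (n : ℕ) (f : κ → ℝ → ℝ) (ι : F →+* ℂ) (X : Finset F) (ξ : Fin g → ℝ)
    (d K : ℕ) (A H κ₀ B E T : ℝ) : Set (Fin n → F) :=
  {q | (∀ j, q j ∈ X) ∧
    ∃ P : MvPolynomial (Fin n × κ) (MvPolynomial (Fin g) ℤ), Admissible ξ d (T ^ A) (T ^ (-H)) P ∧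
      ∃ M : ℕ, T ^ B ≤ (M : ℝ) ∧ (M : ℝ) ≤ T ^ E ∧ ¬ Good κ₀ K M (value ξ (fun z => f z.2 (ι (q z.1)).re) P)}

/-- The assertion for the functions `f_i` on `[a, b]`. -/
def FewExceptions {κ : Type} (f : κ → ℝ → ℝ) (a b : ℝ) : Prop :=
  ∀ (m n g d K : ℕ) (H A ε : ℝ), 0 ≤ H → 0 ≤ A → 0 < ε → ∃ B : ℝ, 1 ≤ B ∧ ∀ E : ℝ, ∃ κ₀ : ℝ, 0 < κ₀ ∧ ∃ C T₀ : ℝ,
    ∀ (F : Type) [Field F] [NumberField F], Module.finrank ℚ F ≤ m → ∀ (ι : F →+* ℂ) (ξ : Fin g → ℝ) (T : ℝ), T₀ ≤ T →
      (∀ i, |ξ i| ≤ T ^ H) → ∀ X : Finset F, (∀ x ∈ X, IsPoint ι a b T x) →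
        (Exceptional n f ι X ξ d K A H κ₀ B E T).Finite ∧
        ((Exceptional n f ι X ξ d K A H κ₀ B E T).ncard : ℝ) ≤ C * T ^ ε * (X.card : ℝ) ^ (n - 1)

/-- The cubic polynomial `4 X ^ 3 - g₂ X - g₃`. -/
noncomputable def cubic (g₂ g₃ : ℝ) : ℝ[X] := C 4 * X ^ 3 - C g₂ * X - C g₃

/-- The elliptic logarithm `u(t) = ∫_c^t ds / √(4 s ^ 3 - g₂ s - g₃)`. -/
noncomputable def u (g₂ g₃ c : ℝ) (t : ℝ) : ℝ := ∫ s in c..t, 1 / √(4 * s ^ 3 - g₂ * s - g₃)

/-- The quasi-logarithm `v(t) = ∫_c^t s ds / √(4 s ^ 3 - g₂ s - g₃)`. -/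
noncomputable def v (g₂ g₃ c : ℝ) (t : ℝ) : ℝ := ∫ s in c..t, s / √(4 * s ^ 3 - g₂ * s - g₃)

/-- The functions `u(t)`, `v(t)` and `log (t + x_i)`. -/
noncomputable def functions {r : ℕ} (g₂ g₃ c : ℝ) (x : Fin r → ℝ) (z : Fin 2 ⊕ Fin r) (t : ℝ) : ℝ :=
  match z with
  | Sum.inl i => ![u g₂ g₃ c t, v g₂ g₃ c t] i
  | Sum.inr i => Real.log (t + x i)

theorem few {κ : Type} [Fintype κ] [DecidableEq κ] (f : κ → ℝ → ℝ) (a b : ℝ)
    (han : ∀ i, AnalyticOnNhd ℝ (f i) (Set.Icc a b)) (hind : Pool.Agent.Y120.AInd f a b) : FewExceptions f a b := by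
  intro m n g d K H A ε hH hA hε
  obtain ⟨B, hB, h⟩ := Pool.Agent.Q29.Eqd.badX_count f a b han hind m n g d K H A ε hH hA hε
  refine ⟨B, hB, fun E => ?_⟩
  obtain ⟨κ₀, C, T₀, hκ₀, hC⟩ := h E
  refine ⟨κ₀, hκ₀, C, T₀, fun F _ _ hF ι ξ T hT hξ X hX => ?_⟩
  have hsub : Exceptional n f ι X ξ d K A H κ₀ B E T ⊆ Pool.Agent.Q29.Eqd.BadX n g d K ι X f (T ^ A) (T ^ (-H)) κ₀ (T ^ B) (T ^ E) ξ := by
    rintro q ⟨hq, P, ⟨hP1, hP2, hP3, hP4⟩, hbad⟩
    exact ⟨hq, P, hP1, hP2, hP3, hP4, hbad⟩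
  have hfin := Pool.Agent.Q29.Eqd.badX_fin n g d K ι X f (T ^ A) (T ^ (-H)) κ₀ (T ^ B) (T ^ E) ξ
  refine ⟨hfin.subset hsub, le_trans ?_ (hC F hF ι ξ T hT hξ X hX)⟩
  exact_mod_cast Set.ncard_le_ncard hsub hfin

/-- Let `g₂`, `g₃` be real numbers such that `4 X ^ 3 - g₂ X - g₃` is square-free and positive on `[a, b]`, `a < b`, let
`c` be in `[a, b]`, and let `x_1, …, x_r` be distinct real numbers with `a + x_i > 0`. -/
theorem result {r : ℕ} (g₂ g₃ : ℝ) (hf : Squarefree (cubic g₂ g₃)) (a b c : ℝ) (hab : a < b)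
    (hpos : ∀ t : ℝ, a ≤ t → t ≤ b → 0 < 4 * t ^ 3 - g₂ * t - g₃) (hc : a ≤ c ∧ c ≤ b) (x : Fin r → ℝ)
    (hx : Function.Injective x) (hxa : ∀ i, 0 < a + x i) : FewExceptions (functions g₂ g₃ c x) a b := by
  have hev : ∀ t : ℝ, (cubic g₂ g₃).eval t = 4 * t ^ 3 - g₂ * t - g₃ := by
    intro t
    simp [cubic]
  have hdeg : (cubic g₂ g₃).natDegree = 3 := by
    unfold cubic
    compute_degree!
  have hpos' : ∀ t ∈ Set.Icc a b, 0 < (cubic g₂ g₃).eval t := fun t ht => by
    rw [hev]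
    exact hpos t ht.1 ht.2
  obtain ⟨ε, hε, hen⟩ := TH659.HY.enlarge (cubic g₂ g₃) a b hab.le hpos'
  have hen' : ∀ t ∈ Set.Ioo (a - ε) (b + ε), 0 < (cubic g₂ g₃).eval t := fun t ht => hen t ⟨ht.1.le, ht.2.le⟩
  have hc' : c ∈ Set.Ioo (a - ε) (b + ε) := ⟨by linarith [hc.1], by linarith [hc.2]⟩
  have heq : functions g₂ g₃ c x = TH659.HY.UL (k := 2) (cubic g₂ g₃) c x := by
    funext z t
    rcases z with i | i
    · fin_cases i
      · show u g₂ g₃ c t = TH659.HY.HI (cubic g₂ g₃) c 0 t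
        unfold u TH659.HY.HI
        simp only [hev, pow_zero]
      · show v g₂ g₃ c t = TH659.HY.HI (cubic g₂ g₃) c 1 t
        unfold v TH659.HY.HI
        simp only [hev, pow_one]
    · rfl
  rw [heq]
  exact few _ a b
    (fun i t ht => TH659.HY.UL_an (cubic g₂ g₃) _ _ hen' c hc' x t ⟨by linarith [ht.1], by linarith [ht.2]⟩
      (fun i => by linarith [hxa i, ht.1]) i)
    (fun d => TH659.HY.UL_ind (cubic g₂ g₃) hf 2 r d (by omega) a b hab hpos' c hc x hx hxa)

end Pool.Agent.Results.MP_c9768e_nt.MultiplesOverConstants
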