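import Mathlib
import Pool.Agent.Y918.EL.Second

/-!
# Logarithms and elliptic logarithms in finitely generated groups: random elements

Let `Ω` be a lattice with algebraic `g₂`, `g₃` and `k = End (ℂ/Ω) ⊗ ℚ`. Let `Γ_1, …, Γ_s` be groups of rank
`r` of logarithms of algebraic numbers, with bases `a_{l,1}, …, a_{l,r}`, and `Λ_1, …, Λ_n` groups of
elliptic logarithms with bases `u_{j,1}, …, u_{j,r}` which are linearly independent over `k` (the groups
may coincide). Let `A` be an arbitrary finite set of integers, for instance `{0, 1}`. We consider the random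
logarithms `t_l = τ_l + ∑_i m_{l,i} a_{l,i}` and elliptic logarithms `p_j = b_j + ∑_i m_{j,i} u_{j,i}`,
`m_{l,i}, m_{j,i} ∈ A`, where `τ_l` and `b_j` are fixed (elliptic) logarithms. For all but
`C |A|^((s+n)r - δr)` of the `|A|^((s+n)r)` choices of `m` the points `p_j` are not in `Ω`, the `t_l`
are linearly independent over `ℚ`, the `p_j` are linearly independent over `k`, and the `s + n` numbers
`t_l`, `p_j` satisfy no nonzero polynomial relation of degree at most `D` with coefficients in `W`, any given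
space of dimension at most `N` over the algebraic numbers, for instance the space generated by the
monomials of degree at most `d` in `π` and the periods and quasi-periods of `Ω`.
-/

set_option autoImplicit false

open scoped PeriodPair

noncomputable section

namespace Pool.Agent.Results.MP_c9768e_nt.RandomCombinations

/-- The field of algebraic numbers. -/
abbrev Qbar : IntermediateField ℚ ℂ := algebraicClosure ℚ ℂ

/-- `β` belongs to the field `k = End(ℂ/Ω) ⊗ ℚ`: some multiple `m β`, `m ≥ 1`, maps the lattice `Ω`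
to itself. -/
def IsMult (L : PeriodPair) (β : ℂ) : Prop :=
  ∃ m : ℕ, 0 < m ∧ ∀ ω ∈ L.lattice, (m : ℂ) * β * ω ∈ L.lattice

/-- The numbers `w_j` are linearly independent over `k`. -/
def IndepMult (L : PeriodPair) {R : ℕ} (w : Fin R → ℂ) : Prop :=
  ∀ β : Fin R → ℂ, (∀ j, IsMult L (β j)) → ∑ j, β j * w j = 0 → ∀ j, β j = 0

/-- `z` is an elliptic logarithm of an algebraic point. -/
def IsEllLog (L : PeriodPair) (z : ℂ) : Prop := z ∈ L.lattice ∨ IsAlgebraic ℚ (℘[L] z)

/-- Some nonzero polynomial of total degree at most `D` with coefficients in `W` vanishes at `x`. -/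
def Related (W : Submodule Qbar ℂ) (D : ℕ) {σ : Type} (x : σ → ℂ) : Prop :=
  ∃ Q : MvPolynomial σ ℂ, Q ≠ 0 ∧ Q.totalDegree ≤ D ∧ (∀ e, Q.coeff e ∈ W) ∧
    MvPolynomial.eval x Q = 0

/-- The numbers `t_l = τ_l + ∑_i m_{l,i} a_{l,i}` and `p_j = b_j + ∑_i m_{j,i} u_{j,i}`. -/
def numbers {s n r : ℕ} (τ : Fin s → ℂ) (a : Fin s → Fin r → ℂ) (b : Fin n → ℂ)
    (u : Fin n → Fin r → ℂ) (m : Fin s ⊕ Fin n → Fin r → ℤ) : Fin s ⊕ Fin n → ℂ
  | Sum.inl l => τ l + ∑ i, (m (Sum.inl l) i : ℂ) * a l i
  | Sum.inr j => b j + ∑ i, (m (Sum.inr j) i : ℂ) * u j i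

/-- The conclusion for the parameter `m`: the `e^(t_l)` and `℘ (p_j)` are algebraic, `p_j ∉ Ω`, the `t_l` are
linearly independent over `ℚ`, the `p_j` are linearly independent over `k`, and there is no relation of
degree at most `D` with coefficients in `W`. -/
def Good (L : PeriodPair) {s n : ℕ} (W : Submodule Qbar ℂ) (D : ℕ) (x : Fin s ⊕ Fin n → ℂ) : Prop :=
  (∀ l, IsAlgebraic ℚ (Complex.exp (x (Sum.inl l)))) ∧
  (∀ j, x (Sum.inr j) ∉ L.lattice ∧ IsAlgebraic ℚ (℘[L] (x (Sum.inr j)))) ∧
  LinearIndependent ℚ (fun l : Fin s => x (Sum.inl l)) ∧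
  IndepMult L (fun j : Fin n => x (Sum.inr j)) ∧ ¬ Related W D x

/-- multipliers are algebraic -/
theorem isMult_algebraic {L : PeriodPair} {β : ℂ} (h : IsMult L β) : IsAlgebraic ℚ β := by
  obtain ⟨m, hm, h⟩ := h
  obtain ⟨x, y, h1⟩ := PeriodPair.mem_lattice.1 (h L.ω₁ L.ω₁_mem_lattice)
  obtain ⟨z, w, h2⟩ := PeriodPair.mem_lattice.1 (h L.ω₂ L.ω₂_mem_lattice)
  -- `m β` is an eigenvalue of an integral matrix
  have hne : ¬ (L.ω₁ = 0 ∧ L.ω₂ = 0) := by
    rintro ⟨h3, -⟩
    have := L.indep.ne_zero 0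
    simp [h3] at this
  set t : ℂ := (m : ℂ) * β with ht
  have e1 : (t - x) * L.ω₁ = y * L.ω₂ := by rw [sub_mul, ← h1]; ring
  have e2 : (t - w) * L.ω₂ = z * L.ω₁ := by rw [sub_mul, ← h2]; ring
  have e3 : ((t - x) * (t - w) - y * z) * L.ω₁ = 0 := by linear_combination (t - w) * e1 + (y : ℂ) * e2
  have e4 : ((t - x) * (t - w) - y * z) * L.ω₂ = 0 := by linear_combination (t - x) * e2 + (z : ℂ) * e1
  have e5 : (t - x) * (t - w) - y * z = 0 := by
    by_contra hc
    exact hne ⟨(mul_eq_zero.1 e3).resolve_left hc, (mul_eq_zero.1 e4).resolve_left hc⟩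
  have halg : IsAlgebraic ℚ t := by
    refine ⟨(Polynomial.X - Polynomial.C (x : ℚ)) * (Polynomial.X - Polynomial.C (w : ℚ)) -
      Polynomial.C ((y : ℚ) * z), ?_, ?_⟩
    · intro h0
      have h6 := congrArg (Polynomial.eval ((|x| + |w| + |y * z| + 2 : ℤ) : ℚ)) h0
      simp only [Polynomial.eval_sub, Polynomial.eval_mul, Polynomial.eval_X, Polynomial.eval_C,
        Polynomial.eval_zero] at h6
      have h8 : ((|x| + |w| + |y * z| + 2) - x) * ((|x| + |w| + |y * z| + 2) - w) - y * z = 0 := by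
        exact_mod_cast h6
      have h9 : |y * z| + 2 ≤ (|x| + |w| + |y * z| + 2) - x := by
        have := le_abs_self x; have := abs_nonneg w; linarith
      have h10 : 1 ≤ (|x| + |w| + |y * z| + 2) - w := by
        have := le_abs_self w; have := abs_nonneg x; have := abs_nonneg (y * z); linarith
      have h11 := le_abs_self (y * z)
      have h12 := abs_nonneg (y * z)
      nlinarith
    · simp only [map_sub, map_mul, Polynomial.aeval_X, Polynomial.aeval_C]
      simpa using e5
  have h7 : β = ((m : ℚ)⁻¹ : ℚ) * t := by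
    have hm2 : (m : ℂ) ≠ 0 := by exact_mod_cast hm.ne'
    rw [ht]
    push_cast
    rw [← mul_assoc, inv_mul_cancel₀ hm2, one_mul]
  rw [h7]
  exact (isAlgebraic_algebraMap (A := ℂ) ((m : ℚ)⁻¹)).mul halg

open Classical in
/-- **Main result.** -/
theorem result (s n D N : ℕ) : ∃ (r₀ C : ℕ) (δ : ℝ), 0 < δ ∧ ∀ r ≥ r₀,
    ∀ L : PeriodPair, IsAlgebraic ℚ L.g₂ → IsAlgebraic ℚ L.g₃ →
    -- logarithms of algebraic numbers
    ∀ a : Fin s → Fin r → ℂ, (∀ l i, IsAlgebraic ℚ (Complex.exp (a l i))) →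
    (∀ l, LinearIndependent ℚ (a l)) →
    -- elliptic logarithms of algebraic points
    ∀ u : Fin n → Fin r → ℂ, (∀ j i, IsEllLog L (u j i)) → (∀ j, IndepMult L (u j)) →
    ∀ (τ : Fin s → ℂ) (b : Fin n → ℂ), (∀ l, IsAlgebraic ℚ (Complex.exp (τ l))) →
    (∀ j, IsEllLog L (b j)) →
    ∀ A : Finset ℤ, A.Nonempty →
    ∀ W : Submodule Qbar ℂ, Module.Finite Qbar W → Module.finrank Qbar W ≤ N →
    (((Fintype.piFinset fun _ : Fin s ⊕ Fin n => Fintype.piFinset fun _ : Fin r => A).filter
      (fun m => ¬ Good L W D (numbers τ a b u m))).card : ℝ) ≤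
      C * (A.card : ℝ) ^ (((s + n) * r : ℝ) - δ * r) := by
  obtain ⟨k₀, C, δ, hδ, h⟩ := Pool.Agent.Y918.EL.second s n (D + 1) (N + 1)
  refine ⟨k₀, C, δ, hδ, fun k hk L h2 h3 a ha ha' u hu hind τ b hτ hb A hA W hW hWN => ?_⟩
  let d : Fin n → Pool.Agent.Y918.EL.SK := fun j =>
    { L := L
      g2 := h2
      g3 := h3
      σ := 0
      ρ := 1
      hσ := isAlgebraic_zero
      hρ := isAlgebraic_one
      hne := Or.inr one_ne_zero }
  -- enlarge `W` by `1`
  set W' : Submodule Qbar ℂ := W ⊔ Submodule.span Qbar {1} with hW'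
  have hfin1 : Module.Finite Qbar (Submodule.span Qbar ({1} : Set ℂ)) :=
    FiniteDimensional.span_of_finite Qbar (Set.finite_singleton _)
  have hWf : Module.Finite Qbar W' := Submodule.finite_sup _ _
  have hWf' : Module.finrank Qbar W' ≤ N + 1 := by
    refine (Submodule.finrank_add_le_finrank_add_finrank _ _).trans (Nat.add_le_add hWN ?_)
    exact (finrank_span_le_card ({1} : Set ℂ)).trans (by simp)
  have h1 := h k hk a (fun l => Pool.Agent.Y918.RP.li_QB_of_logs (ha l) (ha' l)) d u
    (fun j => ⟨hu j, fun β hβ h0 => funext fun i => hind j β hβ h0 i⟩) τ b hb A hA W' hWf hWf'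
  refine le_trans (Nat.cast_le.2 (Finset.card_le_card ?_)) h1
  intro m hm
  rw [Finset.mem_filter] at hm ⊢
  refine ⟨hm.1, fun hG => hm.2 ?_⟩
  obtain ⟨hn, hr⟩ := hG
  set x := numbers τ a b u m with hx
  -- no relation of degree at most `D + 1` with coefficients in `W'`
  have hrel : ∀ Q : MvPolynomial (Fin s ⊕ Fin n) ℂ, Q.totalDegree ≤ D + 1 →
      (∀ e, Q.coeff e ∈ W') → MvPolynomial.eval x Q = 0 → Q = 0 := by
    intro Q hQd hQW hQ0
    apply hr Q hQd hQW
    rw [← hQ0]
    congr 2
    funext i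
    rcases i with i | i
    · rfl
    · change (0 : ℂ) * _ + 1 * _ = _
      rw [zero_mul, zero_add, one_mul]
      rfl
  have hlin : ∀ c : Fin s ⊕ Fin n → ℂ, (∀ i, IsAlgebraic ℚ (c i)) → ∑ i, c i * x i = 0 →
      ∀ i, c i = 0 := by
    intro c hc h0 i
    have hcoef : ∀ e, (∑ i, MvPolynomial.C (c i) * MvPolynomial.X i :
        MvPolynomial (Fin s ⊕ Fin n) ℂ).coeff e ∈ W' := by
      intro e
      rw [MvPolynomial.coeff_sum]
      refine Submodule.sum_mem _ fun i _ => ?_
      rw [MvPolynomial.coeff_C_mul, MvPolynomial.coeff_X]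
      split_ifs
      · rw [mul_one]
        refine (le_sup_right : _ ≤ W') ?_
        rw [Submodule.mem_span_singleton]
        refine ⟨⟨c i, mem_algebraicClosure_iff.2 (hc i)⟩, ?_⟩
        change c i * 1 = c i
        rw [mul_one]
      · rw [mul_zero]; exact Submodule.zero_mem _
    have hQ := hrel (∑ i, MvPolynomial.C (c i) * MvPolynomial.X i) (by
      refine (MvPolynomial.totalDegree_finsetSum _ _).trans (Finset.sup_le fun i _ => ?_)
      refine (MvPolynomial.totalDegree_mul _ _).trans ?_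
      rw [MvPolynomial.totalDegree_C, MvPolynomial.totalDegree_X]
      omega) hcoef (by
      rw [map_sum]
      simpa using h0)
    have h4 := congrArg (MvPolynomial.coeff (Finsupp.single i 1)) hQ
    rw [MvPolynomial.coeff_sum, MvPolynomial.coeff_zero, Finset.sum_eq_single i] at h4
    · simpa using h4
    · intro j _ hj
      rw [MvPolynomial.coeff_C_mul, MvPolynomial.coeff_X, if_neg, mul_zero]
      intro h5
      exact hj (Finsupp.single_left_injective one_ne_zero h5)
    · intro h5; exact absurd (Finset.mem_univ _) h5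
  refine ⟨fun l => ?_, fun j => ?_, ?_, ?_, ?_⟩
  · -- exponentials
    change IsAlgebraic ℚ (Complex.exp (τ l + ∑ i, (m (Sum.inl l) i : ℂ) * a l i))
    rw [Complex.exp_add, Complex.exp_sum]
    refine (hτ l).mul ?_
    have : ∀ t : Finset (Fin k), IsAlgebraic ℚ (∏ i ∈ t, Complex.exp ((m (Sum.inl l) i : ℂ) * a l i)) := by
      intro t
      induction t using Finset.induction_on with
      | empty => simpa using isAlgebraic_one
      | insert i t hi ih =>
        rw [Finset.prod_insert hi]
        refine IsAlgebraic.mul ?_ ih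
        rw [Complex.exp_int_mul]
        rcases (m (Sum.inl l) i) with z | z
        · simpa using (ha l i).pow z
        · rw [zpow_negSucc]
          exact ((ha l i).pow (z + 1)).inv
    exact this _
  · exact ⟨(hn j).1, (hn j).2.resolve_left (hn j).1⟩
  · rw [Fintype.linearIndependent_iff]
    intro g hg l
    have h4 := hlin (Sum.elim (fun l => (g l : ℂ)) (fun _ => 0)) (by
      rintro (l | j)
      · exact isAlgebraic_algebraMap (A := ℂ) (g l)
      · exact isAlgebraic_zero) (by
      rw [Fintype.sum_sum_type]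
      simp only [Sum.elim_inl, Sum.elim_inr, zero_mul, Finset.sum_const_zero, add_zero]
      rw [← hg]
      refine Finset.sum_congr rfl fun l _ => ?_
      rw [Algebra.smul_def]
      rfl) (Sum.inl l)
    have h5 : (g l : ℂ) = 0 := h4
    exact_mod_cast h5
  · intro β hβ h0 j
    exact hlin (Sum.elim (fun _ => 0) β) (by
      rintro (l | j)
      · exact isAlgebraic_zero
      · exact isMult_algebraic (hβ j)) (by
      rw [Fintype.sum_sum_type]
      simp only [Sum.elim_inl, Sum.elim_inr, zero_mul, Finset.sum_const_zero, zero_add]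
      exact h0) (Sum.inr j)
  · rintro ⟨Q, hQ, hQd, hQW, hQ0⟩
    exact hQ (hrel Q (by omega) (fun e => (le_sup_left : W ≤ W') (hQW e)) hQ0)

end Pool.Agent.Results.MP_c9768e_nt.RandomCombinations
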