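import Pool.Agent.Q229.RAE
import Pool.Agent.TH818.AP.LogZ
import Pool.Agent.TH818.AP.Wp2

/-!
# Logarithms, elliptic logarithms and inverse values of `ζ` at ALL rational points near almost every real point

For rational `q_j` in an open set `D_j` we consider `π` and the `n` numbers `f_j(q_j)`, where `f_j` is a real analytic branch of
the inverse of `exp`, `℘` or `ζ` on `D_j`.

The starting file `AlmostAllPoints` bounds the number of the exceptional tuples of height `T` by `T^(2(n-1)+β)` for some
`β < 2`; with the counting theorem of `Pool.Agent.Y120.RealPolys` (`β` arbitrarily small) and coverings we obtain all rational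
points near all real points outside a set of small Hausdorff dimension.
-/

set_option autoImplicit false

open MeasureTheory Filter
open scoped PeriodPair

namespace Pool.Agent.Results.MP_c9768e_nt.RationalsNearRealPoints

/-- The Weierstrass `ζ` function of the lattice `L`. -/
noncomputable def zeta (L : PeriodPair) (z : ℂ) : ℂ := ∑' l : L.lattice, (1 / (z - l) + 1 / l + z / l ^ 2)

/-- `f` is on `D` a real analytic branch of the inverse of `exp`, of `℘` or of `ζ`. -/
def IsBranch (L : PeriodPair) (D : Set ℝ) (f : ℝ → ℝ) : Prop :=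
  AnalyticOnNhd ℝ f D ∧ ((∀ t ∈ D, Real.exp (f t) = t) ∨
    (∀ t ∈ D, (f t : ℂ) ∉ L.lattice ∧ ℘[L] (f t) = t) ∨
    (∀ t ∈ D, (f t : ℂ) ∉ L.lattice ∧ zeta L (f t) = t))

/-- The `n + 1` numbers `π` and `f_j(q_j)`. -/
noncomputable def numbers {n : ℕ} (f : Fin n → ℝ → ℝ) (q : Fin n → ℚ) (x : Option (Fin n)) : ℂ :=
  match x with
  | none => Real.pi
  | some j => f j (q j)

/-- **Theorem.** Let `n ≥ 1`, let `L_1, …, L_n` be lattices (for instance all equal), let `f_j` be on the open set `D_j` a real
analytic branch of the inverse of one of the functions `exp`, `℘_j`, `ζ_j`, and consider the numbers `π`, `f_j(q_j)` (domain: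
`x_j ∈ D_j`). Then for every `τ > 0` there is a set `Z ⊂ ℝ^n` of Hausdorff dimension at most
`2 (n - 1) / τ` (dimension `0` for `n = 1`), and of Lebesgue measure zero if `2 (n - 1) < n τ`, such that for all `x ∉ Z` in the domain,
all `d`, `A`, some `B` and all sufficiently large `T` the following holds for ALL rational points `q` with denominators at most `T`
and `|x_j - q_j| ≤ T ^ (-τ)`: every nonzero integer polynomial of degree at most `d` in each variable with coefficients at
most `T ^ A` takes at these numbers a value larger than `T ^ (-B)` in absolute value. -/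
theorem result (n : ℕ) (hn : 1 ≤ n) (L : Fin n → PeriodPair) (D : Fin n → Set ℝ) (hD : ∀ j, IsOpen (D j))
    (f : Fin n → ℝ → ℝ) (hf : ∀ j, IsBranch (L j) (D j) (f j)) (τ : ℝ) (hτ : 0 < τ) :
    ∃ Z : Set (Fin n → ℝ), dimH Z ≤ ENNReal.ofReal (2 * ((n : ℝ) - 1) / τ) ∧
      (2 * ((n : ℝ) - 1) < n * τ → volume Z = 0) ∧
      ∀ x : Fin n → ℝ, (∀ j, x j ∈ D j) → x ∉ Z → ∀ (d : ℕ) (A : ℝ), ∃ B : ℝ, ∀ᶠ T : ℝ in atTop,
        ∀ q : Fin n → ℚ, (∀ j, ((q j).den : ℝ) ≤ T ∧ |x j - q j| ≤ T ^ (-τ)) →
        ∀ P : MvPolynomial (Option (Fin n)) ℤ, P ≠ 0 → (∀ z, P.degreeOf z ≤ d) →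
          (∀ u, |((P.coeff u : ℤ) : ℝ)| ≤ T ^ A) → T ^ (-B) < ‖MvPolynomial.aeval (numbers f q) P‖ := by
  have hind : ∀ (j : Fin n) (a b : ℝ), a < b → Set.Icc a b ⊆ D j →
      Pool.Agent.Y120.AInd (fun (_ : Unit) t => f j t) a b := by
    intro j a b hab hsub
    refine Pool.Agent.Q229.RA.aind_unit fun d => ?_
    obtain ⟨han, h | h | h⟩ := hf j
    · have ha : 0 < a := by
        rw [← h a (hsub ⟨le_rfl, hab.le⟩)]
        exact Real.exp_pos _
      intro P hP
      refine TH818.AP.log_indep d a b ha hab P fun t ht => ?_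
      have h1 : Real.log t = f j t := by
        conv_lhs => rw [← h t (hsub ht)]
        exact Real.log_exp _
      simp only [h1]
      exact hP t ht
    · exact TH818.AP.wp_indep d hab (han.mono hsub) (fun t ht => (h t (hsub ht)).1) (fun t ht => (h t (hsub ht)).2)
    · exact TH818.AP.zt_indep d hab (han.mono hsub) (fun t ht => (h t (hsub ht)).1) (fun t ht => (h t (hsub ht)).2)
  obtain ⟨Z, h1, h2, h3⟩ := Pool.Agent.Q229.RA.masterO hn (fun j (_ : Unit) t => f j t) (fun _ => 0) D hD
    (fun j _ => (hf j).1) hind (fun q z => numbers f q (z.map Prod.fst)) (fun _ => rfl)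
    (fun q hq j i => by
      rw [pow_zero, one_mul]
      rfl) τ hτ
  refine ⟨Z, h1, h2, fun x hxD hx d A => ?_⟩
  obtain ⟨B, hB⟩ := h3 x hxD hx d A
  refine ⟨B, ?_⟩
  filter_upwards [hB] with T hT q hq P hP hdeg hcoef
  let e : Option (Fin n) ≃ Option (Fin n × Unit) := Equiv.optionCongr (Equiv.prodPUnit (Fin n)).symm
  have h4 := Pool.Agent.Q229.RA.rename_bound e (hT q hq) P hP hdeg hcoef
  have h5 : (fun x => numbers f q ((e x).map Prod.fst)) = numbers f q := by
    funext z
    cases z <;> rfl
  rw [h5] at h4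
  exact h4

end Pool.Agent.Results.MP_c9768e_nt.RationalsNearRealPoints
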