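import Pool.Agent.Q311.LN.E

/-!
# Split semi-elliptic logarithms of algebraic functions of several variables, over all number fields

Let `Λ` be a lattice (its invariants are arbitrary complex numbers, complex multiplication is allowed). Let
`t_1, …, t_s` and `p_1, …, p_n` be analytic functions on a connected open set `U` of an affine space, of any dimension,
such that all `exp(t_k)` are algebraic functions (algebraic over the field of rational functions of the coordinates), and
for every `i` one of the functions `℘(p_i)` and `ζ(p_i)` is an algebraic function: `℘(p_i)` for `i ∈ I` and `ζ(p_i)` for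
`i ∉ I`. So the `t_k` are logarithms, the `p_i`, `i ∈ I`, elliptic logarithms of algebraic functions of several variables,
and for `i ∉ I` the `p_i` are inverse values of `ζ`; their number can be larger than the number of variables.

Genericity is required along one line: no nontrivial combination of the `p_i` with coefficients in the ring of
endomorphisms and no nontrivial integral combination of the `t_k` is constant along it.

There are bounds `ω T → ∞` such that for all number fields `K` of degree at most `ω T`, at all points `x ∈ U` with
coordinates in `K` of height at most `T` outside few hypersurfaces of small degree, the `s + n` numbers `t_k(x)`, `p_i(x)`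
of the problem do not satisfy any nontrivial relation of degree at most `ω T` whose coefficients are combinations of
arbitrary complex constants `ξ` (for instance of the monomials in the periods, the quasi-periods and `2 π i`) with integral
coefficients in `K` of size at most `T ^ ω T`; even the `s + 2 n` numbers `t_k(x)`, `p_i(x)`, `ζ(p_i(x))` (`i ∈ I`),
`℘(p_i(x))` (`i ∉ I`) do not satisfy such a relation. (At the points of some hypersurfaces the numbers may be linearly
dependent, so exceptional hypersurfaces cannot be avoided.)
-/

set_option autoImplicit false

open Pool.Agent.Q311.MV Pool.Agent.Q311.LN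
open scoped PeriodPair

namespace Pool.Agent.Results.MP_c9768e_nt.SeveralVariables

/-- The functions `t_k`, `p_i` and, for every `i`, `ζ(p_i)` if `i ∈ I` and `℘(p_i)` if `i ∉ I`. -/
noncomputable def values {X : Type} {n s : ℕ} (L : PeriodPair) (I : Finset (Fin n)) (t : Fin s → (X → ℂ) → ℂ)
    (p : Fin n → (X → ℂ) → ℂ) : Fin s ⊕ (Fin n ⊕ Fin n) → (X → ℂ) → ℂ :=
  Sum.elim t (Sum.elim p fun i x => if i ∈ I then ζ L (p i x) else ℘[L] (p i x))

/-- the name of a function -/
def name {n s : ℕ} (I : Finset (Fin n)) : Fin s ⊕ (Fin n ⊕ Fin n) → EName n s :=
  Sum.elim EName.t (Sum.elim EName.p fun i => if i ∈ I then EName.zeta i else EName.wp i)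

/-- the names of the functions which are algebraic -/
noncomputable def names {n s : ℕ} (I : Finset (Fin n)) : Finset (EName n s) :=
  Finset.univ.image EName.expt ∪ Finset.univ.image fun i => if i ∈ I then EName.wp i else EName.zeta i

/-- Let `t k` and `p i` be analytic functions on the connected open set `U ⊆ ℂ ^ X`, generic along one line, such that
the functions `exp (t k)`, `℘ (p i)` for `i ∈ I` and `ζ (p i)` for `i ∉ I` are algebraic functions. Then the values of the
`s + 2 n` functions `t k`, `p i`, `ζ (p i)` for `i ∈ I` and `℘ (p i)` for `i ∉ I` are independent at almost all points over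
all number fields. -/
theorem result {X : Type} [Fintype X] [DecidableEq X] [Nonempty X] (U : Set (X → ℂ)) (hU : IsOpen U) {n s : ℕ}
    (L : PeriodPair) (p : Fin n → (X → ℂ) → ℂ) (t : Fin s → (X → ℂ) → ℂ) (a v : X → ℂ)
    (z₀ : ℂ) (r : ℝ) (h : EFamily U (fun _ : Fin 1 => L) (fun _ => 0) p t a v z₀ r)
    (ht : ∀ k, Algebraic U fun x => Complex.exp (t k x)) (I : Finset (Fin n))
    (hwp : ∀ i ∈ I, Algebraic U fun x => ℘[L] (p i x)) (hz : ∀ i ∉ I, Algebraic U fun x => ζ L (p i x)) :
    AlmostAllValues U (values L I t p) := by
  classical
  have hne : U.Nonempty := ⟨_, h.mem z₀ (Metric.mem_ball_self h.r_pos)⟩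
  obtain ⟨e, he, hI⟩ := eindep hU h
  have hinj1 : Function.Injective (EName.expt : Fin s → EName n s) := fun a b hab => by injection hab
  have hinj2 : Function.Injective fun i : Fin n => if i ∈ I then (EName.wp i : EName n s) else EName.zeta i := by
    intro a b hab
    dsimp only at hab
    split_ifs at hab <;> injection hab
  have hcard : (names I : Finset (EName n s)).card = s + n := by
    rw [names, Finset.card_union_of_disjoint, Finset.card_image_of_injective _ hinj1,
      Finset.card_image_of_injective _ hinj2, Finset.card_univ, Finset.card_univ, Fintype.card_fin, Fintype.card_fin]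
    rw [Finset.disjoint_left]
    intro m hm hm'
    obtain ⟨k, -, rfl⟩ := Finset.mem_image.1 hm
    obtain ⟨i, -, hi⟩ := Finset.mem_image.1 hm'
    split_ifs at hi
  have halg : ∀ m ∈ (names I : Finset (EName n s)), Algebraic U fun x => evalue (fun _ : Fin 1 => L) (fun _ => 0) p t x m := by
    intro m hm
    rcases Finset.mem_union.1 hm with hm | hm
    · obtain ⟨k, -, rfl⟩ := Finset.mem_image.1 hm
      exact ht k
    · obtain ⟨i, -, rfl⟩ := Finset.mem_image.1 hm
      by_cases hi : i ∈ I
      · simp only [if_pos hi]
        exact hwp i hi
      · simp only [if_neg hi]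
        exact hz i hi
  have hI2 := indep_compl he hI halg (by rw [hcard, ecard_name]; ring)
  have hnm : ∀ m : Fin s ⊕ (Fin n ⊕ Fin n), (name I m : EName n s) ∉ (names I : Finset (EName n s)) := by
    intro m hm
    rcases Finset.mem_union.1 hm with hm | hm
    · obtain ⟨k, -, hk⟩ := Finset.mem_image.1 hm
      rcases m with l | i | i
      · exact absurd hk (by simp [name])
      · exact absurd hk (by simp [name])
      · simp only [name, Sum.elim_inr] at hk
        split_ifs at hk
    · obtain ⟨k, -, hk⟩ := Finset.mem_image.1 hm
      rcases m with l | i | i
      · simp only [name, Sum.elim_inl] at hk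
        split_ifs at hk
      · simp only [name, Sum.elim_inr, Sum.elim_inl] at hk
        split_ifs at hk
      · simp only [name, Sum.elim_inr] at hk
        split_ifs at hk with h1 h2 h2
        · injection hk with h3
          exact h2 (h3 ▸ h1)
        · injection hk with h3
          exact h1 (h3 ▸ h2)
  have hninj : Function.Injective (name I : Fin s ⊕ (Fin n ⊕ Fin n) → EName n s) := by
    rintro (k | i | i) (l | j | j) hkl
    all_goals simp only [name, Sum.elim_inl, Sum.elim_inr] at hkl
    all_goals try split_ifs at hkl
    all_goals first | (injection hkl with h1; rw [h1]) | (injection hkl)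
  have hI3 := indep_sub hI2 (g := fun m => ⟨name I m, hnm m⟩) fun k l hkl => hninj (congrArg Subtype.val hkl)
  have hfun : ∀ m : Fin s ⊕ (Fin n ⊕ Fin n), (fun x => evalue (fun _ : Fin 1 => L) (fun _ => 0) p t x (name I m)) =
      values L I t p m := by
    intro m
    funext x
    rcases m with k | i | i
    · rfl
    · rfl
    · simp only [name, values, Sum.elim_inr]
      by_cases hi : i ∈ I
      · rw [if_pos hi, if_pos hi]
        rfl
      · rw [if_neg hi, if_neg hi]
        rfl
  refine almostAll_of_indep h.isPreconnected hU hne (fun m => ?_) ?_
  · rw [← hfun m]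
    exact evalue_an h _
  · intro P hP
    apply hI3
    intro x hx
    rw [← hP x hx]
    congr 1
    funext m
    exact hfun m

end Pool.Agent.Results.MP_c9768e_nt.SeveralVariables
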